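import Pool.Agent.V11277.SZ

/-!
# A supp-perfect semigroup with a non-open set `U_x`

The semigroup is `A ∪ {z, o}` with a product which is `z` or `o` on `A` and `o` otherwise. The
elements `h n` have the supports `{y 0, ..., y n}`, the elements `t k` the supports `{x, y k}` and the
element `f` has the support `{x}`. The element `t k` does not commute with `f` and with the `h n`,
`n ≥ k`. So the `h n` tend to `f` although `x` is not in their supports. The other elements serve to
make the semigroup supp-perfect.
-/

set_option autoImplicit false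

namespace Pool.Agent.Results.MP_496bc7_gt.SupportSetNotOpen

open Pool.Agent.V11277.SZ Pool.Agent.V11277.SZ.NS Filter Topology

/-- `(S, supp)` is supp-perfect. -/
structure SuppPerfect (S X : Type) [Semigroup S] (supp : S → Set X) : Prop where
  mul_subset : ∀ f g, supp (f * g) ⊆ supp f ∪ supp g
  comm : ∀ f g, supp f ∩ supp g = ∅ → f * g = g * f
  cover : (⋃ f, supp f) = Set.univ
  finite_supp : ∀ f, (supp f).Finite
  finite_below : ∀ F : Set X, F.Finite → {f | supp f ⊆ F}.Finite
  eq_cent : ∀ F : Set X, F.Finite → {f | supp f ⊆ F} = Set.centralizer {f | supp f ⊆ Fᶜ}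

/-- The points of the supports. -/
inductive X : Type
  | x : X
  | y (k : ℕ) : X
  | w (n k j : ℕ) : X

/-- The elements of the semigroup other than `z` and `o`. -/
inductive A : Type
  | f : A
  | t (k : ℕ) : A
  | h (n : ℕ) : A
  | e (k : ℕ) : A
  | e' (k : ℕ) : A
  | d (n k j : ℕ) : A
  | g (n k j : ℕ) : A
  | g' (n k j : ℕ) : A

/-- The pairs with product `z`. -/
def R : A → A → Prop
  | .t _, .f => True
  | .t k, .h n => k ≤ n
  | .e k, .t l => k = l
  | .e k, .e' l => k = l
  | .e k, .d _ l _ => k = l
  | .d n k _, .h m => n = m ∧ k ≤ n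
  | .g n k j, .d n' k' j' => n = n' ∧ k = k' ∧ j = j'
  | .g n k j, .g' n' k' j' => n = n' ∧ k = k' ∧ j = j'
  | _, _ => False

/-- The supports of the elements of `A`. -/
def sA : A → Set X
  | .f => {X.x}
  | .t k => {X.x, X.y k}
  | .h n => {u | ∃ k ≤ n, u = X.y k}
  | .e k => {X.y k}
  | .e' k => {X.y k}
  | .d n k j => {X.y k, X.w n k j}
  | .g n k j => {X.w n k j}
  | .g' n k j => {X.w n k j}

/-- The supports. -/
def supp : NS A R → Set X
  | .el a => sA a
  | .z => ∅
  | .o => ∅

/-- Two elements with disjoint supports commute. -/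
theorem R_meet {a b : A} (h : R a b) : (sA a ∩ sA b).Nonempty := by
  cases a <;> cases b <;> simp only [R] at h
  · exact ⟨X.x, by simp [sA]⟩
  · rename_i k n
    exact ⟨X.y k, by simp [sA], k, h, rfl⟩
  · subst h
    rename_i k
    exact ⟨X.y k, by simp [sA]⟩
  · subst h
    rename_i k
    exact ⟨X.y k, by simp [sA]⟩
  · subst h
    rename_i k n j
    exact ⟨X.y k, by simp [sA]⟩
  · rename_i n k j m
    exact ⟨X.y k, by simp [sA], k, h.1 ▸ h.2, rfl⟩
  · obtain ⟨rfl, rfl, rfl⟩ := h
    rename_i n k j
    exact ⟨X.w n k j, by simp [sA]⟩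
  · obtain ⟨rfl, rfl, rfl⟩ := h
    rename_i n k j
    exact ⟨X.w n k j, by simp [sA]⟩

/-- Every point outside a finite set is witnessed by a neighbour with support outside this set. -/
theorem witness {a : A} {F : Set X} (hF : F.Finite) {u : X} (hu : u ∈ sA a) (huF : u ∉ F) :
    ∃ b, sA b ⊆ Fᶜ ∧ b ∈ nb R a := by
  cases a with
  | f =>
    have hu' : u = X.x := hu
    subst hu'
    obtain ⟨k, hk⟩ : ∃ k, X.y k ∉ F := by
      by_contra hcon
      push Not at hcon
      refine Set.infinite_range_of_injective (f := X.y) ?_ (hF.subset ?_)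
      · intro a b h
        injection h
      · rintro _ ⟨k, rfl⟩
        exact hcon k
    refine ⟨A.t k, ?_, by simp [nb, R]⟩
    rintro v (rfl | rfl)
    · exact huF
    · exact hk
  | t k =>
    rcases hu with rfl | rfl
    · refine ⟨A.f, ?_, by simp [nb, R]⟩
      rintro v rfl
      exact huF
    · refine ⟨A.e k, ?_, by simp [nb, R]⟩
      rintro v rfl
      exact huF
  | h n =>
    obtain ⟨k, hk, rfl⟩ := hu
    obtain ⟨j, hj⟩ : ∃ j, X.w n k j ∉ F := by
      by_contra hcon
      push Not at hcon
      refine Set.infinite_range_of_injective (f := X.w n k) ?_ (hF.subset ?_)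
      · intro a b h
        injection h
      · rintro _ ⟨j, rfl⟩
        exact hcon j
    refine ⟨A.d n k j, ?_, by simp [nb, R, hk]⟩
    rintro v (rfl | rfl)
    · exact huF
    · exact hj
  | e k =>
    have hu' : u = X.y k := hu
    subst hu'
    refine ⟨A.e' k, ?_, by simp [nb, R]⟩
    rintro v rfl
    exact huF
  | e' k =>
    have hu' : u = X.y k := hu
    subst hu'
    refine ⟨A.e k, ?_, by simp [nb, R]⟩
    rintro v rfl
    exact huF
  | d n k j =>
    rcases hu with rfl | rfl
    · refine ⟨A.e k, ?_, by simp [nb, R]⟩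
      rintro v rfl
      exact huF
    · refine ⟨A.g n k j, ?_, by simp [nb, R]⟩
      rintro v rfl
      exact huF
  | g n k j =>
    have hu' : u = X.w n k j := hu
    subst hu'
    refine ⟨A.g' n k j, ?_, by simp [nb, R]⟩
    rintro v rfl
    exact huF
  | g' n k j =>
    have hu' : u = X.w n k j := hu
    subst hu'
    refine ⟨A.g n k j, ?_, by simp [nb, R]⟩
    rintro v rfl
    exact huF

theorem nb_meet {a b : A} (h : b ∈ nb R a) : (sA a ∩ sA b).Nonempty := by
  by_cases h1 : R a b
  · exact R_meet h1
  · by_cases h2 : R b a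
    · rw [Set.inter_comm]
      exact R_meet h2
    · exact absurd (iff_of_false h1 h2) h

/-- A point of the support which determines the element up to finitely many possibilities. -/
def mark : A → X
  | .f => X.x
  | .t k => X.y k
  | .h n => X.y n
  | .e k => X.y k
  | .e' k => X.y k
  | .d n k j => X.w n k j
  | .g n k j => X.w n k j
  | .g' n k j => X.w n k j

theorem mark_mem (a : A) : mark a ∈ sA a := by
  cases a <;> simp [mark, sA]

theorem finite_mark (u : X) : {a : A | mark a = u}.Finite := by
  rcases u with _ | k | ⟨n, k, j⟩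
  · refine (Set.finite_singleton A.f).subset ?_
    intro a ha
    cases a <;> simp_all [mark]
  · refine (Set.toFinite {A.t k, A.h k, A.e k, A.e' k}).subset ?_
    intro a ha
    cases a <;> simp_all [mark]
  · refine (Set.toFinite {A.d n k j, A.g n k j, A.g' n k j}).subset ?_
    intro a ha
    cases a <;> simp_all [mark]

theorem suppPerfect : SuppPerfect (NS A R) X supp where
  mul_subset := by
    intro f g
    rcases mul_mem f g with h | h <;> rw [h] <;> exact Set.empty_subset _
  comm := by
    intro f g h
    rcases f with a | _ | _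
    · rcases g with b | _ | _
      · by_contra hne
        have := nb_meet ((mem_nb a b).2 hne)
        rw [show sA a ∩ sA b = ∅ from h] at this
        exact Set.not_nonempty_empty this
      · exact (z_comm _).symm
      · exact (o_comm _).symm
    · exact z_comm _
    · exact o_comm _
  cover := by
    rw [Set.eq_univ_iff_forall]
    intro u
    rcases u with _ | k | ⟨n, k, j⟩
    · exact Set.mem_iUnion.2 ⟨el A.f, rfl⟩
    · exact Set.mem_iUnion.2 ⟨el (A.e k), rfl⟩
    · exact Set.mem_iUnion.2 ⟨el (A.g n k j), rfl⟩
  finite_supp := by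
    intro f
    rcases f with a | _ | _
    · cases a with
      | h n =>
        refine ((Set.finite_Iic n).image X.y).subset ?_
        rintro _ ⟨k, hk, rfl⟩
        exact ⟨k, hk, rfl⟩
      | _ => simp [supp, sA]
    · exact Set.finite_empty
    · exact Set.finite_empty
  finite_below := by
    intro F hF
    refine (((hF.biUnion fun u _ => finite_mark u).image (fun a => (el a : NS A R))).union
      (Set.toFinite {(z : NS A R), (o : NS A R)})).subset ?_
    rintro (a | _ | _) ha
    · left
      exact ⟨a, Set.mem_biUnion (ha (mark_mem a)) rfl, rfl⟩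
    · right
      simp
    · right
      simp
  eq_cent := by
    intro F hF
    ext f
    constructor
    · intro hf m hm
      have hdis : supp m ∩ supp f = ∅ := by
        rw [Set.eq_empty_iff_forall_notMem]
        rintro u ⟨h1, h2⟩
        exact hm h1 (hf h2)
      rcases f with a | _ | _
      · rcases m with b | _ | _
        · by_contra hne
          have := nb_meet ((mem_nb b a).2 hne)
          rw [show sA b ∩ sA a = ∅ from hdis] at this
          exact Set.not_nonempty_empty this
        · exact z_comm _
        · exact o_comm _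
      · exact (z_comm _).symm
      · exact (o_comm _).symm
    · intro hf u hu
      rcases f with a | _ | _
      · by_contra huF
        obtain ⟨b, hb, hab⟩ := witness hF hu huF
        rw [mem_nb] at hab
        exact hab (hf (el b) hb).symm
      · exact absurd hu (Set.notMem_empty u)
      · exact absurd hu (Set.notMem_empty u)

theorem R_h (a : A) : ∀ᶠ n in atTop, (R a (A.h n) ↔ R a A.f) := by
  cases a with
  | t k =>
    filter_upwards [eventually_ge_atTop k] with n hn
    simp [R, hn]
  | d m k j =>
    filter_upwards [eventually_gt_atTop m] with n hn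
    have : m ≠ n := by omega
    simp [R, this]
  | _ => exact Eventually.of_forall fun n => by simp [R]

theorem R_h' (a : A) (n : ℕ) : ¬ R (A.h n) a := by
  cases a <;> simp [R]

theorem R_f (a : A) : ¬ R A.f a := by
  cases a <;> simp [R]

theorem tendsto_sz : Tendsto (fun n => (el (A.h n) : NS A R)) atTop
    (@nhds _ (semiZariski (NS A R)) (el A.f)) := by
  refine tendsto_semiZariski ?_ R_h fun a => Eventually.of_forall fun n =>
    iff_of_false (R_h' a n) (R_f a)
  intro a
  cases a with
  | h m =>
    filter_upwards [eventually_gt_atTop m] with n hn h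
    injection h with h
    omega
  | _ =>
    refine Eventually.of_forall fun n h => ?_
    cases h

/-- The set `U_x`. -/
theorem h_notMem (n : ℕ) : (el (A.h n) : NS A R) ∉ {f : NS A R | X.x ∈ supp f} := by
  rintro ⟨k, _, hk⟩
  cases hk

theorem f_mem : (el A.f : NS A R) ∈ {f : NS A R | X.x ∈ supp f} := rfl

/-- The Hausdorff semigroup topology: all points but `f` are isolated, and `h n` tends to `f`. -/
abbrev tau : TopologicalSpace (NS A R) where
  IsOpen U := (el A.f : NS A R) ∈ U → ∀ᶠ n in atTop, (el (A.h n) : NS A R) ∈ U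
  isOpen_univ _ := Eventually.of_forall fun _ => Set.mem_univ _
  isOpen_inter U V hU hV h := (hU h.1).and (hV h.2)
  isOpen_sUnion 𝒰 h𝒰 := by
    rintro ⟨U, hU, hf⟩
    filter_upwards [h𝒰 U hU hf] with n hn
    exact ⟨U, hU, hn⟩

theorem tau_isolated {p : NS A R} (hp : p ≠ el A.f) : @IsOpen _ tau {p} :=
  fun h => absurd h.symm hp

theorem tau_nhds {P : NS A R → Prop} (h1 : P (el A.f)) (h2 : ∀ᶠ n in atTop, P (el (A.h n))) :
    ∀ᶠ u in @nhds _ tau (el A.f), P u := by
  let _ := tau
  exact IsOpen.mem_nhds (s := {u | P u}) (fun _ => h2) h1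

theorem tau_nhds' {p : NS A R} (hp : p ≠ el A.f) : ∀ᶠ u in @nhds _ tau p, u = p := by
  let _ := tau
  exact IsOpen.mem_nhds (s := {p}) (tau_isolated hp) rfl

theorem el_h_mul (n : ℕ) (x : NS A R) : (el (A.h n) : NS A R) * x = o := by
  classical
  rcases x with a | _ | _
  · rw [el_mul_el, if_neg (R_h' a n)]
  · exact mul_z _
  · exact mul_o _

theorem el_f_mul (x : NS A R) : (el A.f : NS A R) * x = o := by
  classical
  rcases x with a | _ | _
  · rw [el_mul_el, if_neg (R_f a)]
  · exact mul_z _
  · exact mul_o _

theorem tau_t2 : @T2Space _ tau := by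
  let _ := tau
  have key : ∀ q : NS A R, q ≠ el A.f → ∃ U V : Set (NS A R), IsOpen U ∧ IsOpen V ∧
      (el A.f : NS A R) ∈ U ∧ q ∈ V ∧ Disjoint U V := by
    intro q hq
    refine ⟨{q}ᶜ, {q}, ?_, tau_isolated hq, fun h => hq h.symm, rfl, disjoint_compl_left⟩
    intro _
    by_cases hex : ∃ m, q = el (A.h m)
    · obtain ⟨m, rfl⟩ := hex
      filter_upwards [eventually_gt_atTop m] with n hn h
      have h1 : (el (A.h n) : NS A R) = el (A.h m) := h
      injection h1 with h1
      injection h1 with h1
      omega
    · exact Eventually.of_forall fun n h => hex ⟨n, h.symm⟩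
  refine ⟨fun p q hpq => ?_⟩
  by_cases hp : p = el A.f
  · subst hp
    exact key q (Ne.symm hpq)
  · by_cases hq : q = el A.f
    · subst hq
      obtain ⟨U, V, hU, hV, h1, h2, h3⟩ := key p hp
      exact ⟨V, U, hV, hU, h2, h1, h3.symm⟩
    · exact ⟨{p}, {q}, tau_isolated hp, tau_isolated hq, rfl, rfl,
        Set.disjoint_singleton.2 hpq⟩

theorem tau_mul : @ContinuousMul _ tau _ := by
  classical
  let _ := tau
  refine ⟨continuous_iff_continuousAt.2 ?_⟩
  rintro ⟨p, q⟩
  have key : ∀ᶠ u : NS A R × NS A R in 𝓝 (p, q), u.1 * u.2 = p * q := by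
    rw [nhds_prod_eq]
    by_cases hp : p = el A.f
    · subst hp
      have h1 : ∀ᶠ u in 𝓝 (el A.f : NS A R), ∀ v, u * v = o :=
        tau_nhds el_f_mul (Eventually.of_forall el_h_mul)
      have h2 : ∀ᶠ u : NS A R × NS A R in 𝓝 (el A.f : NS A R) ×ˢ 𝓝 q, ∀ v, u.1 * v = o :=
        h1.prod_inl _
      filter_upwards [h2] with u hu
      rw [hu, el_f_mul]
    · have h1 := tau_nhds' hp
      by_cases hq : q = el A.f
      · subst hq
        have h2 : ∀ᶠ v in 𝓝 (el A.f : NS A R), p * v = p * el A.f := by
          refine tau_nhds rfl ?_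
          rcases p with a | _ | _
          · filter_upwards [R_h a] with n hn
            rw [el_mul_el, el_mul_el, if_congr hn rfl rfl]
          · exact Eventually.of_forall fun n => by rw [z_mul, z_mul]
          · exact Eventually.of_forall fun n => by rw [o_mul, o_mul]
        filter_upwards [h1.prod_inl _, h2.prod_inr _] with u hu1 hu2
        rw [hu1, hu2]
      · have h2 := tau_nhds' hq
        filter_upwards [h1.prod_inl _, h2.prod_inr _] with u hu1 hu2
        rw [hu1, hu2]
  exact tendsto_nhds_of_eventually_eq key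

/-- There are a supp-perfect semigroup `S` and a point `x` such that the set `U_x` of the elements
with `x` in the support is not open in the semi-Zariski topology, and there is even a Hausdorff
semigroup topology on `S` for which `U_x` is not open. -/
theorem result : ∃ (S X : Type) (_ : Semigroup S) (supp : S → Set X) (x : X),
    SuppPerfect S X supp ∧ ¬ @IsOpen S (semiZariski S) {f | x ∈ supp f} ∧
      ∃ τ : TopologicalSpace S, @T2Space S τ ∧ @ContinuousMul S τ _ ∧
        ¬ @IsOpen S τ {f | x ∈ supp f} := by
  refine ⟨NS A R, X, inferInstance, supp, X.x, suppPerfect, ?_, tau, tau_t2, tau_mul, ?_⟩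
  · intro ho
    let _ := semiZariski (NS A R)
    obtain ⟨n, hn⟩ := (tendsto_sz.eventually (ho.mem_nhds f_mem)).exists
    exact h_notMem n hn
  · intro ho
    obtain ⟨n, hn⟩ := (ho f_mem).exists
    exact h_notMem n hn

end Pool.Agent.Results.MP_496bc7_gt.SupportSetNotOpen
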